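import Pool.Agent.H70.Sym

namespace Pool.Agent.Results.MP_064e41_al.Counterexample

open Pool.Agent.H70.Sym

universe u

theorem result :
    (∀ (k : Type u) [Field k] (ω : k), IsPrimitiveRoot ω 5 →
      Fails 5 3 (cst (cst ω)) (cst (ind k)) (ind (RatFunc k))) ∧
    ¬ ∀ (p m r : ℕ), p.Prime → Odd p → 1 ≤ m → 2 ≤ r → r ≤ p - 1 →
      ∀ (F : Type) [Field F] [CharZero F] (A : Type) [Ring A] [Algebra F A],
        IsDiv F A (p ^ m) → Bound F A (p ^ m) r := by
  refine ⟨fun k _ ω hω => ?_, fun h => ?_⟩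
  · obtain ⟨a, b, c, V, d, e⟩ := main hω
    exact ⟨⟨a, b, c⟩, fun h => absurd (h V fun v hv => div_eq_zero_iff.2 (.inl (key e v hv)))
      (not_le.2 d)⟩
  · obtain ⟨a, b, c, V, d, e⟩ := main (Complex.isPrimitiveRoot_exp 5 (by norm_num))
    exact absurd (h 5 1 3 Nat.prime_five (by decide) le_rfl (by norm_num) (by norm_num) _ _ ⟨a, b, c⟩ V
      fun v hv => by rw [Trd, key e v hv, zero_div]) (not_le.2 d)

end Pool.Agent.Results.MP_064e41_al.Counterexample
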